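import Pool.Agent.Helper79_WRA.StmtB

/-!
WRA, VPOW: values of characters at powers.
-/

open scoped BigOperators

noncomputable section

namespace Pool.Agent.Helper79_WRA.H15

open Pool.Agent.Helper51_AWC Pool.Agent.Helper79_WRA

/-- Traces of the powers of an endomorphism of finite order. -/
theorem trace_pow_eq {V : Type*} [AddCommGroup V] [Module ℂ V] [FiniteDimensional ℂ V]
    (f : Module.End ℂ V) {N : ℕ} (hN : 0 < N) (hf : f ^ N = 1) {ζ : ℂ}
    (hζ : IsPrimitiveRoot ζ N) :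
    ∃ m : ℕ → ℕ, ∀ k : ℕ, LinearMap.trace ℂ V (f ^ k) =
      ∑ j ∈ Finset.range N, (m j : ℂ) * (ζ ^ j) ^ k := by
  have hN0 : (N : ℂ) ≠ 0 := by exact_mod_cast hN.ne'
  have hζ0 : ζ ≠ 0 := hζ.ne_zero hN.ne'
  -- the orthogonality relations
  have horth : ∀ a b : ℕ, a < N → b < N →
      ∑ k ∈ Finset.range N, (ζ ^ a) ^ k * ((ζ ^ b)⁻¹) ^ k = if a = b then (N : ℂ) else 0 := by
    intro a b ha hb
    simp_rw [← mul_pow]
    by_cases hab : a = b
    · subst hab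
      rw [mul_inv_cancel₀ (pow_ne_zero _ hζ0), if_pos rfl]
      simp
    · rw [if_neg hab]
      have h1 : ζ ^ a * (ζ ^ b)⁻¹ ≠ 1 := by
        intro h
        apply hab
        have h2 : ζ ^ a = ζ ^ b := by
          rw [mul_inv_eq_one₀ (pow_ne_zero _ hζ0)] at h
          exact h
        exact hζ.pow_inj ha hb h2
      have h3 := mul_geom_sum (ζ ^ a * (ζ ^ b)⁻¹) N
      have h4 : (ζ ^ a * (ζ ^ b)⁻¹) ^ N = 1 := by
        rw [mul_pow, inv_pow, ← pow_mul, ← pow_mul, mul_comm a, mul_comm b, pow_mul, pow_mul,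
          hζ.pow_eq_one]
        simp
      rw [h4, sub_self] at h3
      rcases mul_eq_zero.1 h3 with h5 | h5
      · exact absurd (sub_eq_zero.1 h5) h1
      · exact h5
  let P : ℕ → Module.End ℂ V := fun j =>
    (N : ℂ)⁻¹ • ∑ k ∈ Finset.range N, (((ζ ^ j)⁻¹) ^ k) • f ^ k
  -- f P_j = ζ^j P_j
  have hfP : ∀ j, f * P j = (ζ ^ j) • P j := by
    intro j
    have hj0 : ζ ^ j ≠ 0 := pow_ne_zero _ hζ0
    have h1 : ∀ k, f * ((((ζ ^ j)⁻¹) ^ k) • f ^ k) =
        (ζ ^ j) • ((((ζ ^ j)⁻¹) ^ (k + 1)) • f ^ (k + 1)) := by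
      intro k
      rw [mul_smul_comm, ← pow_succ', smul_smul]
      congr 1
      rw [pow_succ]
      field_simp
    have h2 : ∑ k ∈ Finset.range N, ((((ζ ^ j)⁻¹) ^ (k + 1)) • f ^ (k + 1)) =
        ∑ k ∈ Finset.range N, ((((ζ ^ j)⁻¹) ^ k) • f ^ k) := by
      have h3 := Finset.sum_range_succ (fun k => (((ζ ^ j)⁻¹) ^ k) • f ^ k) N
      have h4 := Finset.sum_range_succ' (fun k => (((ζ ^ j)⁻¹) ^ k) • f ^ k) N
      rw [h3] at h4
      have h5 : (((ζ ^ j)⁻¹) ^ N) • f ^ N = (((ζ ^ j)⁻¹) ^ 0) • f ^ 0 := by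
        rw [hf, pow_zero, pow_zero, inv_pow, ← pow_mul, mul_comm j, pow_mul, hζ.pow_eq_one, one_pow,
          inv_one]
      rw [h5] at h4
      exact (add_right_cancel h4).symm
    change f * ((N : ℂ)⁻¹ • ∑ k ∈ Finset.range N, (((ζ ^ j)⁻¹) ^ k) • f ^ k) = _
    rw [mul_smul_comm, Finset.mul_sum]
    simp_rw [h1]
    rw [← Finset.smul_sum, h2, smul_comm]
  have hfkP : ∀ j k, f ^ k * P j = (ζ ^ j) ^ k • P j := by
    intro j k
    induction k with
    | zero => rw [pow_zero, pow_zero, one_mul, one_smul]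
    | succ k ih =>
      rw [pow_succ, mul_assoc, hfP, mul_smul_comm, ih, smul_smul, ← pow_succ']
  -- idempotents
  have hPP : ∀ j < N, P j * P j = P j := by
    intro j hj
    have h1 : P j * P j = (N : ℂ)⁻¹ • ∑ k ∈ Finset.range N, (((ζ ^ j)⁻¹) ^ k) • (f ^ k * P j) := by
      change ((N : ℂ)⁻¹ • ∑ k ∈ Finset.range N, (((ζ ^ j)⁻¹) ^ k) • f ^ k) * P j = _
      rw [smul_mul_assoc, Finset.sum_mul]
      simp_rw [smul_mul_assoc]
    rw [h1]
    simp_rw [hfkP, smul_smul]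
    rw [← Finset.sum_smul, smul_smul]
    have h2 := horth j j hj hj
    rw [if_pos rfl] at h2
    simp_rw [mul_comm] at h2 ⊢
    rw [h2, inv_mul_cancel₀ hN0, one_smul]
  -- the sum of the idempotents
  have hsum : ∑ j ∈ Finset.range N, P j = 1 := by
    change ∑ j ∈ Finset.range N, ((N : ℂ)⁻¹ • ∑ k ∈ Finset.range N, (((ζ ^ j)⁻¹) ^ k) • f ^ k) = 1
    rw [← Finset.smul_sum, Finset.sum_comm]
    simp_rw [← Finset.sum_smul]
    have h1 : ∀ k ∈ Finset.range N, (∑ j ∈ Finset.range N, ((ζ ^ j)⁻¹) ^ k) • f ^ k =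
        if k = 0 then (N : ℂ) • (1 : Module.End ℂ V) else 0 := by
      intro k hk
      have h2 := horth 0 k hN (Finset.mem_range.1 hk)
      simp only [pow_zero, one_pow, one_mul] at h2
      have h3 : ∀ j, ((ζ ^ j)⁻¹) ^ k = ((ζ ^ k)⁻¹) ^ j := by
        intro j
        rw [inv_pow, inv_pow, ← pow_mul, ← pow_mul, mul_comm]
      simp_rw [h3]
      rw [h2]
      by_cases hk0 : k = 0
      · subst hk0
        rw [if_pos rfl, if_pos rfl, pow_zero]
      · rw [if_neg (fun h => hk0 h.symm), if_neg hk0, zero_smul]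
    rw [Finset.sum_congr rfl h1, Finset.sum_ite_eq' (Finset.range N) 0, if_pos
      (Finset.mem_range.2 hN), smul_smul, inv_mul_cancel₀ hN0, one_smul]
  have htr : ∀ j : ℕ, ∃ m : ℕ, j < N → LinearMap.trace ℂ V (P j) = m := by
    intro j
    by_cases hj : j < N
    · have h1 : LinearMap.IsProj (LinearMap.range (P j)) (P j) :=
        LinearMap.IsIdempotentElem.isProj_range (P j) (hPP j hj)
      exact ⟨_, fun _ => h1.trace⟩
    · exact ⟨0, fun h => absurd h hj⟩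
  choose m hm using htr
  refine ⟨m, fun k => ?_⟩
  have h1 : f ^ k = ∑ j ∈ Finset.range N, (ζ ^ j) ^ k • P j := by
    conv_lhs => rw [← mul_one (f ^ k), ← hsum, Finset.mul_sum]
    simp_rw [hfkP]
  rw [h1, map_sum]
  apply Finset.sum_congr rfl
  intro j hj
  rw [map_smul, hm j (Finset.mem_range.1 hj), smul_eq_mul, mul_comm]

/-- Values of a character at the powers of an element. -/
theorem irr_pow {G : Type} [Group G] {χ : G → ℂ} (hχ : χ ∈ Irr G) (y : G) {N : ℕ} (hN : 0 < N)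
    (hy : y ^ N = 1) {ζ : ℂ} (hζ : IsPrimitiveRoot ζ N) :
    ∃ m : ℕ → ℕ, ∀ k : ℕ, χ (y ^ k) = ∑ j ∈ Finset.range N, (m j : ℂ) * (ζ ^ j) ^ k := by
  obtain ⟨n, ρ, hρ, rfl⟩ := hχ
  obtain ⟨m, hm⟩ := trace_pow_eq (ρ y) hN (by rw [← map_pow, hy, map_one]) hζ
  refine ⟨m, fun k => ?_⟩
  rw [← hm k, ← map_pow]
  rfl

theorem charP_FF {ℓ : ℕ} [hp : Fact ℓ.Prime] {M : Ideal (integralClosure ℤ ℂ)} [hM : M.IsMaximal]
    (hℓ : (ℓ : integralClosure ℤ ℂ) ∈ M) : CharP (FF M) ℓ := by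
  have h1 : Nontrivial (FF M) := Ideal.Quotient.nontrivial_iff.2 hM.ne_top
  rw [CharP.charP_iff_prime_eq_zero hp.out]
  have h2 : ((ℓ : ℕ) : FF M) = Ideal.Quotient.mk M (ℓ : integralClosure ℤ ℂ) :=
    (map_natCast (Ideal.Quotient.mk M) ℓ).symm
  rw [h2]
  exact Ideal.Quotient.eq_zero_iff_mem.2 hℓ

theorem red_natCast {M : Ideal (integralClosure ℤ ℂ)} (n : ℕ) : red M (n : ℂ) = (n : FF M) := by
  rw [red_of (AI.natCast n)]
  have h2 : ((n : ℕ) : FF M) = Ideal.Quotient.mk M (n : integralClosure ℤ ℂ) :=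
    (map_natCast (Ideal.Quotient.mk M) n).symm
  rw [h2]
  congr 1

/-- Sums of multiples of integral elements: powers. -/
theorem red_sum_pow {ℓ : ℕ} [hp : Fact ℓ.Prime] {M : Ideal (integralClosure ℤ ℂ)}
    [hM : M.IsMaximal] (hℓ : (ℓ : integralClosure ℤ ℂ) ∈ M) (n : ℕ) (s : Finset ℕ) (m : ℕ → ℕ)
    (z : ℕ → ℂ) (hz : ∀ j, IsIntegral ℤ (z j)) :
    red M (∑ j ∈ s, (m j : ℂ) * (z j) ^ (ℓ ^ n)) =
      (red M (∑ j ∈ s, (m j : ℂ) * z j)) ^ (ℓ ^ n) := by
  have hch : CharP (FF M) ℓ := charP_FF hℓ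
  have hexp : ExpChar (FF M) ℓ := ExpChar.prime hp.out
  have hF : ∀ x : FF M, x ^ (ℓ ^ n) = iterateFrobenius (FF M) ℓ n x := fun x =>
    (iterateFrobenius_def ℓ n x).symm
  rw [red_sum _ _ fun j _ => (AI.natCast _).mul ((hz j).pow _),
    red_sum _ _ fun j _ => (AI.natCast _).mul (hz j), hF, map_sum]
  apply Finset.sum_congr rfl
  intro j _
  rw [red_mul (AI.natCast _) ((hz j).pow _), red_mul (AI.natCast _) (hz j), map_mul,
    red_natCast, map_natCast, red_pow (hz j), hF]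

theorem integral_root {ζ : ℂ} {N : ℕ} (hN : 0 < N) (h : ζ ^ N = 1) : IsIntegral ℤ ζ := by
  apply IsIntegral.of_pow (n := N) hN
  rw [h]
  exact isIntegral_one

theorem vpow : VpowStmt := by
  intro ℓ _ M _ hℓ G _ _ χ hχ y n
  have hN : 0 < orderOf y := orderOf_pos y
  obtain ⟨m, hm⟩ := irr_pow hχ y hN (pow_orderOf_eq_one y)
    (Complex.isPrimitiveRoot_exp (orderOf y) hN.ne')
  have h1 := hm 1
  rw [pow_one] at h1
  simp_rw [pow_one] at h1
  rw [hm (ℓ ^ n), h1]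
  refine red_sum_pow hℓ n _ m _ fun j => ?_
  exact (integral_root hN (Complex.isPrimitiveRoot_exp (orderOf y) hN.ne').pow_eq_one).pow _

end Pool.Agent.Helper79_WRA.H15
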