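import Pool.Agent.Helper79_WRA.StmtC
import Pool.Agent.Helper51_AWC.Abelian
import Mathlib.Analysis.Fourier.FiniteAbelian.PontryaginDuality

/-!
WRA, AFB: the irreducible characters of `AGL_1(F)`.
-/

open scoped BigOperators

noncomputable section

namespace Pool.Agent.Helper79_WRA.H15

open Pool.Agent.Helper51_AWC Pool.Agent.Helper79_WRA

section aff

variable (F : Type) [Field F] [Finite F]

open Classical in
/-- the character of degree `|F| - 1` -/
def bigc : Aff F → ℂ :=
  fun x => if x.a = 1 then (if x.b = 0 then (Nat.card F : ℂ) - 1 else -1) else 0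

/-- the projection to the multiplicative group -/
def projA : Aff F →* Fˣ where
  toFun x := x.a
  map_one' := rfl
  map_mul' _ _ := rfl

theorem card_aff : Nat.card (Aff F) = Nat.card F * (Nat.card F - 1) := by
  classical
  have := Fintype.ofFinite F
  rw [Nat.card_congr (Aff.equivProd F), Nat.card_prod, mul_comm, Nat.card_units]

theorem sum_aff [Fintype F] [Fintype (Aff F)] [DecidableEq F] (f : Aff F → ℂ) :
    ∑ x, f x = ∑ a : Fˣ, ∑ b : F, f ⟨a, b⟩ := by
  rw [← Equiv.sum_comp (Aff.equivProd F).symm, Fintype.sum_prod_type]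
  rfl

theorem bigc_norm [Fintype (Aff F)] :
    ∑ x, bigc F x * bigc F x⁻¹ = Fintype.card (Aff F) := by
  classical
  have := Fintype.ofFinite F
  have hq : 1 < Nat.card F := Finite.one_lt_card
  rw [sum_aff F, Finset.sum_eq_single_of_mem (1 : Fˣ) (Finset.mem_univ _)]
  · have h1 : ∀ b : F, bigc F ⟨1, b⟩ * bigc F (⟨1, b⟩ : Aff F)⁻¹ =
        if b = 0 then ((Nat.card F : ℂ) - 1) ^ 2 else 1 := by
      intro b
      unfold bigc
      rw [Aff.inv_a, Aff.inv_b]
      simp only [inv_one, Units.val_one, if_true]
      by_cases hb : b = 0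
      · subst hb; simp; ring
      · simp [hb]
    simp_rw [h1]
    rw [← Finset.add_sum_erase _ _ (Finset.mem_univ (0 : F)), if_pos rfl,
      Finset.sum_congr rfl (fun b hb => if_neg (Finset.ne_of_mem_erase hb)),
      Finset.sum_const, Finset.card_erase_of_mem (Finset.mem_univ _), Finset.card_univ,
      ← Nat.card_eq_fintype_card (α := Aff F), card_aff, ← Nat.card_eq_fintype_card,
      nsmul_eq_mul, mul_one]
    push_cast [Nat.cast_sub hq.le]
    ring
  · intro a _ ha
    apply Finset.sum_eq_zero
    intro b _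
    unfold bigc
    rw [if_neg ha, zero_mul]

theorem bigc_mem : bigc F ∈ Irr (Aff F) := by
  classical
  have := Fintype.ofFinite F
  have := Fintype.ofFinite (Aff F)
  obtain ⟨ψ, hψ⟩ := (AddChar.exists_apply_ne_zero (α := F) (a := 1)).2 one_ne_zero
  have hψ1 : ψ ≠ 1 := by
    rintro rfl
    exact hψ (AddChar.one_apply _)
  have hprim := AddChar.IsPrimitive.of_ne_one hψ1
  refine mem_Irr_of_coeff (X := Fˣ)
    (fun x d c => if c = d * x.a then ψ ((d : F) * x.b) else 0) ?_ ?_ (bigc F) ?_ (bigc_norm F)
  · intro a b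
    rw [Aff.one_a, Aff.one_b, mul_one, mul_zero, AddChar.map_zero_eq_one]
    simp only [eq_comm]
  · intro g h a b
    rw [Finset.sum_eq_single_of_mem (a * g.a) (Finset.mem_univ _)]
    · rw [if_pos rfl, Aff.mul_a, Aff.mul_b]
      by_cases hb : b = a * g.a * h.a
      · rw [if_pos hb, if_pos (by rw [hb, mul_assoc]), ← AddChar.map_add_eq_mul]
        congr 1
        push_cast
        ring
      · rw [if_neg hb, if_neg (by rw [← mul_assoc]; exact hb), mul_zero]
    · intro c _ hc
      rw [if_neg hc, zero_mul]
  · intro g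
    unfold bigc
    by_cases ha : g.a = 1
    · rw [if_pos ha]
      simp only [ha, mul_one, if_true]
      have h1 : ∑ x : F, ψ (x * g.b) = ∑ d : Fˣ, ψ ((d : F) * g.b) + 1 := by
        rw [← Finset.add_sum_erase _ _ (Finset.mem_univ (0 : F)), zero_mul,
          AddChar.map_zero_eq_one, add_comm]
        congr 1
        symm
        refine Finset.sum_bij (fun (d : Fˣ) _ => (d : F)) ?_ ?_ ?_ ?_
        · intro d _
          rw [Finset.mem_erase]
          exact ⟨d.ne_zero, Finset.mem_univ _⟩
        · intro d _ e _ h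
          exact Units.ext h
        · intro x hx
          exact ⟨Units.mk0 x (Finset.ne_of_mem_erase hx), Finset.mem_univ _, rfl⟩
        · intro d _
          rfl
      rw [AddChar.sum_mulShift _ hprim] at h1
      by_cases hb : g.b = 0
      · rw [if_pos hb] at h1 ⊢
        rw [Nat.card_eq_fintype_card]
        have h2 : ((Fintype.card F : ℕ) : ℂ) = ∑ d : Fˣ, ψ ((d : F) * g.b) + 1 := by
          rw [← h1]
        rw [h2]
        ring
      · rw [if_neg hb] at h1 ⊢
        push_cast at h1
        linear_combination -h1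
    · rw [if_neg ha]
      apply Finset.sum_eq_zero
      intro d _
      rw [if_neg]
      intro h
      exact ha (mul_left_cancel (a := d) (by rw [mul_one]; exact h.symm))

theorem lin_mem (ψ : Fˣ →* ℂˣ) : (fun x : Aff F => (ψ x.a : ℂ)) ∈ Irr (Aff F) :=
  linear_mem_Irr (ψ.comp (projA F))

end aff

theorem afb : AfbStmt := by
  classical
  intro F _ _ χ
  have := Fintype.ofFinite F
  have := Fintype.ofFinite (Aff F)
  have hq : 1 < Nat.card F := Finite.one_lt_card
  constructor
  · intro hχ
    by_contra hno
    push Not at hno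
    obtain ⟨hno1, hno2⟩ := hno
    have hroots : HasEnoughRootsOfUnity ℂ (Monoid.exponent Fˣ) := inferInstance
    have hcard : Nat.card (Fˣ →* ℂˣ) = Nat.card Fˣ :=
      CommGroup.card_monoidHom_of_hasEnoughRootsOfUnity Fˣ ℂ
    have hfin : Finite (Fˣ →* ℂˣ) := by
      apply Nat.finite_of_card_ne_zero
      rw [hcard]; exact Nat.card_pos.ne'
    have := Fintype.ofFinite (Fˣ →* ℂˣ)
    have hfI : Finite (Irr (Aff F)) := (irr_finite' (G := Aff F)).to_subtype
    have := Fintype.ofFinite (Irr (Aff F))
    have h1 := sum_one_mul (G := Aff F) 1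
    rw [if_pos rfl] at h1
    -- the injection
    let e : Option (Option (Fˣ →* ℂˣ)) → Irr (Aff F) := fun o =>
      match o with
      | none => ⟨χ, hχ⟩
      | some none => ⟨bigc F, bigc_mem F⟩
      | some (some ψ) => ⟨fun x => (ψ x.a : ℂ), lin_mem F ψ⟩
    have he : Function.Injective e := by
      intro x y hxy
      rcases x with _ | _ | ψ <;> rcases y with _ | _ | ψ'
      · rfl
      · exact absurd (congrArg Subtype.val hxy) hno2
      · exact absurd (congrArg Subtype.val hxy) (hno1 ψ')
      · exact absurd (congrArg Subtype.val hxy).symm hno2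
      · rfl
      · exfalso
        have h2 := congrFun (congrArg Subtype.val hxy) (⟨1, 1⟩ : Aff F)
        simp only [e, bigc, if_true, one_ne_zero, if_false, map_one, Units.val_one] at h2
        norm_num at h2
      · exact absurd (congrArg Subtype.val hxy).symm (hno1 ψ)
      · exfalso
        have h2 := congrFun (congrArg Subtype.val hxy) (⟨1, 1⟩ : Aff F)
        simp only [e, bigc, if_true, one_ne_zero, if_false, map_one, Units.val_one] at h2
        norm_num at h2
      · congr 2
        ext u
        exact congrFun (congrArg Subtype.val hxy) (⟨u, 0⟩ : Aff F)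
    have hdeg : ∀ χ : Irr (Aff F), ∃ d : ℕ, 0 < d ∧ (χ : Aff F → ℂ) 1 = d := fun χ => irr_one χ.2
    choose d hd hd1 using hdeg
    have h3 : ∑ χ : Irr (Aff F), (d χ) ^ 2 = Nat.card F * (Nat.card F - 1) := by
      rw [← card_aff, Nat.card_eq_fintype_card]
      have h4 : ((∑ χ : Irr (Aff F), (d χ) ^ 2 : ℕ) : ℂ) = ((Fintype.card (Aff F) : ℕ) : ℂ) := by
        rw [← h1]
        push_cast
        apply Finset.sum_congr rfl
        intro χ _
        rw [hd1]
        ring
      exact_mod_cast h4
    have h5 : ∑ o : Option (Option (Fˣ →* ℂˣ)), (d (e o)) ^ 2 ≤ ∑ χ : Irr (Aff F), (d χ) ^ 2 := by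
      rw [← Finset.sum_image (s := Finset.univ) (f := fun χ => (d χ) ^ 2) (g := e)
        (fun x _ y _ h => he h)]
      exact Finset.sum_le_sum_of_subset (Finset.subset_univ _)
    rw [Fintype.sum_option, Fintype.sum_option, h3] at h5
    have h6 : d (e (some none)) = Nat.card F - 1 := by
      have h7 := hd1 (e (some none))
      have h8 : (e (some none) : Aff F → ℂ) 1 = (Nat.card F : ℂ) - 1 := by
        show bigc F 1 = _
        unfold bigc
        rw [Aff.one_a, Aff.one_b, if_pos rfl, if_pos rfl]
      rw [h8] at h7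
      have h9 : ((d (e (some none)) : ℕ) : ℂ) = ((Nat.card F - 1 : ℕ) : ℂ) := by
        rw [← h7]
        push_cast [Nat.cast_sub hq.le]
        ring
      exact_mod_cast h9
    have h10 : ∀ ψ, d (e (some (some ψ))) = 1 := by
      intro ψ
      have h7 := hd1 (e (some (some ψ)))
      have h8 : (e (some (some ψ)) : Aff F → ℂ) 1 = 1 := by
        show ((ψ (1 : Aff F).a : ℂˣ) : ℂ) = 1
        rw [Aff.one_a, map_one, Units.val_one]
      rw [h8] at h7
      exact_mod_cast h7.symm
    simp only [h6, h10] at h5
    rw [Finset.sum_const, Finset.card_univ, ← Nat.card_eq_fintype_card, hcard,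
      Nat.card_units] at h5
    have h11 := hd (e none)
    obtain ⟨n, hn⟩ : ∃ n, Nat.card F = n + 1 := ⟨Nat.card F - 1, by omega⟩
    rw [hn] at h5
    simp only [Nat.add_sub_cancel] at h5
    have h12 : 0 < (d (e none)) ^ 2 := pow_pos h11 2
    simp only [smul_eq_mul] at h5
    nlinarith [h5, h12]
  · rintro (⟨ψ, rfl⟩ | rfl)
    · exact lin_mem F ψ
    · exact bigc_mem F

end Pool.Agent.Helper79_WRA.H15
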