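import Pool.Agent.Helper15_WRA.Vpow

/-!
WRA, GAL: Galois conjugation by a Frobenius element.
-/

open scoped BigOperators Cardinal
open Polynomial Cardinal

noncomputable section

namespace Pool.Agent.Helper79_WRA.H15

open Pool.Agent.Helper51_AWC Pool.Agent.Helper79_WRA

/-- Two uncountable algebraically closed extensions of a countable field of the same cardinality
are isomorphic over it. -/
theorem exists_ringEquiv (R K L : Type) [Field R] [Field K] [Field L] [Algebra R K] [Algebra R L]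
    [IsAlgClosed K] [IsAlgClosed L] (hR : #R ≤ ℵ₀) (hK : ℵ₀ < #K) (hKL : #K = #L) :
    ∃ σ : K ≃+* L, ∀ r, σ (algebraMap R K r) = algebraMap R L r := by
  obtain ⟨s, hs⟩ := exists_isTranscendenceBasis R K
  obtain ⟨t, ht⟩ := exists_isTranscendenceBasis R L
  have h1 := IsAlgClosed.cardinal_eq_cardinal_transcendence_basis_of_aleph0_lt' _ hs hR hK
  have h2 := IsAlgClosed.cardinal_eq_cardinal_transcendence_basis_of_aleph0_lt' _ ht hR
    (hKL ▸ hK)
  have h3 : #s = #t := by rw [← h1, ← h2, hKL]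
  obtain ⟨e⟩ := Cardinal.eq.1 h3
  letI := IsAlgClosed.isAlgClosure_of_transcendence_basis _ hs
  letI := IsAlgClosed.isAlgClosure_of_transcendence_basis _ ht
  let E := hs.1.aevalEquiv.symm.trans ((MvPolynomial.renameEquiv R e).trans ht.1.aevalEquiv)
  refine ⟨IsAlgClosure.equivOfEquiv K L E.toRingEquiv, fun r => ?_⟩
  have h4 : algebraMap R K r = algebraMap (Algebra.adjoin R (Set.range ((↑) : s → K))) K
      (algebraMap R _ r) := IsScalarTower.algebraMap_apply _ _ _ _
  have h5 : algebraMap R L r = algebraMap (Algebra.adjoin R (Set.range ((↑) : t → L))) L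
      (algebraMap R _ r) := IsScalarTower.algebraMap_apply _ _ _ _
  rw [h4, IsAlgClosure.equivOfEquiv_algebraMap, h5]
  congr 1
  exact E.commutes r

/-- Endomorphisms of `ℂ` with given action on roots of unity. -/
theorem exists_sigma (m q : ℕ) (hm : 0 < m) (hq : q.Coprime m) :
    ∃ σ : ℂ →+* ℂ, ∀ z : ℂ, z ^ m = 1 → σ z = z ^ q := by
  set ζ : ℂ := Complex.exp (2 * Real.pi * Complex.I / m) with hζd
  have hζ : IsPrimitiveRoot ζ m := Complex.isPrimitiveRoot_exp m hm.ne'
  have hζq : IsPrimitiveRoot (ζ ^ q) m := hζ.pow_of_coprime q hq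
  have hirr : Fact (Irreducible (cyclotomic m ℚ)) := ⟨cyclotomic.irreducible_rat hm⟩
  have h1 : eval₂ (algebraMap ℚ ℂ) ζ (cyclotomic m ℚ) = 0 := by
    rw [← eval_map, map_cyclotomic]
    exact hζ.isRoot_cyclotomic hm
  have h2 : eval₂ (algebraMap ℚ ℂ) (ζ ^ q) (cyclotomic m ℚ) = 0 := by
    rw [← eval_map, map_cyclotomic]
    exact hζq.isRoot_cyclotomic hm
  let i₁ : AdjoinRoot (cyclotomic m ℚ) →+* ℂ := AdjoinRoot.lift (algebraMap ℚ ℂ) ζ h1
  let i₂ : AdjoinRoot (cyclotomic m ℚ) →+* ℂ := AdjoinRoot.lift (algebraMap ℚ ℂ) (ζ ^ q) h2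
  have hcount : #(AdjoinRoot (cyclotomic m ℚ)) ≤ ℵ₀ := by
    have h3 : #(AdjoinRoot (cyclotomic m ℚ)) ≤ #(ℚ[X]) :=
      Cardinal.mk_le_of_surjective (f := AdjoinRoot.mk (cyclotomic m ℚ)) AdjoinRoot.mk_surjective
    refine h3.trans (Polynomial.cardinalMk_le_max.trans ?_)
    simp
  have hC : ℵ₀ < #ℂ := by
    rw [Cardinal.mk_complex]
    exact Cardinal.aleph0_lt_continuum
  obtain ⟨σ, hσ⟩ := @exists_ringEquiv (AdjoinRoot (cyclotomic m ℚ)) ℂ ℂ _ _ _ i₁.toAlgebra
    i₂.toAlgebra _ _ hcount hC rfl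
  refine ⟨(σ : ℂ →+* ℂ), fun z hz => ?_⟩
  have h3 : σ ζ = ζ ^ q := by
    have h4 := hσ (AdjoinRoot.root _)
    have h5 : i₁ (AdjoinRoot.root _) = ζ := AdjoinRoot.lift_root h1
    have h6 : i₂ (AdjoinRoot.root _) = ζ ^ q := AdjoinRoot.lift_root h2
    change σ (i₁ (AdjoinRoot.root _)) = i₂ (AdjoinRoot.root _) at h4
    rw [h5, h6] at h4
    exact h4
  have hm' : NeZero m := ⟨hm.ne'⟩
  obtain ⟨k, _, rfl⟩ := hζ.eq_pow_of_pow_eq_one hz
  change σ (ζ ^ k) = _
  rw [map_pow, h3, ← pow_mul, ← pow_mul, mul_comm]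

/-- `|G| / χ(1)` is a natural number. -/
theorem codeg_nat {G : Type} [Group G] [Finite G] {χ : G → ℂ} (hχ : χ ∈ Irr G) :
    ∃ u : ℕ, (Nat.card G : ℂ) / χ 1 = u := by
  classical
  have := Fintype.ofFinite G
  have := Fintype.ofFinite (ConjClasses G)
  have h1 : IsIntegral ℤ ((Nat.card G : ℂ) / χ 1) := by
    rw [Nat.card_eq_fintype_card, codeg_eq hχ]
    exact IsIntegral.sum _ fun K _ => (omega_integral _ hχ _).mul (irr_integral hχ _)
  obtain ⟨d, hd, hd'⟩ := irr_one hχ
  have h2 : (Nat.card G : ℂ) / χ 1 = algebraMap ℚ ℂ ((Nat.card G : ℚ) / d) := by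
    rw [hd', map_div₀, map_natCast, map_natCast]
  rw [h2] at h1
  have h3 : IsIntegral ℤ ((Nat.card G : ℚ) / d) :=
    (isIntegral_algebraMap_iff (algebraMap ℚ ℂ).injective).1 h1
  obtain ⟨z, hz⟩ := IsIntegrallyClosed.isIntegral_iff.1 h3
  have h4 : (0 : ℤ) ≤ z := by
    have h5 : (0 : ℚ) ≤ (z : ℚ) := by
      have h6 : (z : ℚ) = (Nat.card G : ℚ) / d := hz
      rw [h6]; positivity
    exact_mod_cast h5
  obtain ⟨u, rfl⟩ := Int.eq_ofNat_of_zero_le h4
  refine ⟨u, ?_⟩
  rw [h2, ← hz]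
  simp

/-- `|C_G(g)| ω_χ(g) = (|G| / χ(1)) χ(g)`. -/
theorem cent_omega {G : Type} [Group G] [Finite G] {χ : G → ℂ} (hχ : χ ∈ Irr G) (g : G) :
    (Nat.card (Subgroup.centralizer {g} : Subgroup G) : ℂ) * omega (MonoidHom.id G) χ g =
      (Nat.card G : ℂ) / χ 1 * χ g := by
  classical
  have := Fintype.ofFinite G
  rw [omega_eq]
  have h1 : (∑ h : G, if IsConj g ((MonoidHom.id G) h) then χ h else 0) =
      ((Finset.univ.filter fun h => IsConj g h).card : ℂ) * χ g := by
    rw [← Finset.sum_filter, Finset.sum_congr rfl (g := fun _ => χ g)]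
    · rw [Finset.sum_const, nsmul_eq_mul]
      rfl
    · intro h hh
      exact (irr_isConj hχ (Finset.mem_filter.1 hh).2).symm
  rw [h1]
  have h2 := card_class g
  have h3 : (Nat.card (Subgroup.centralizer {g} : Subgroup G) : ℂ) *
      ((Finset.univ.filter fun h => IsConj g h).card : ℂ) = (Nat.card G : ℂ) := by
    rw [Nat.card_eq_fintype_card (α := G), ← h2]
    push_cast
    rfl
  rw [← mul_div_assoc, ← mul_assoc, h3]
  ring

theorem gal : GalStmt := by
  intro ℓ hp M hM hℓ G _ _ ξ hξ n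
  classical
  have := Fintype.ofFinite G
  have hch : CharP (FF M) ℓ := charP_FF hℓ
  have hexp : ExpChar (FF M) ℓ := ExpChar.prime hp.out
  have hfield : IsDomain (FF M) := Ideal.Quotient.isDomain M
  set m : ℕ := Nat.card G / ℓ ^ (Nat.card G).factorization ℓ with hmdef
  have hG : Nat.card G ≠ 0 := Nat.card_pos.ne'
  have hm : 0 < m := Nat.ordCompl_pos ℓ hG
  have hcop : (ℓ ^ n).Coprime m := (Nat.coprime_ordCompl hp.out hG).pow_left n
  obtain ⟨σ, hσ⟩ := exists_sigma m (ℓ ^ n) hm hcop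
  obtain ⟨d, hd, hd'⟩ := irr_one hξ
  have hmem : (fun g => σ (ξ g)) ∈ Irr G := by
    obtain ⟨k, r, hr1, hr2, hr3⟩ := irr_coeff hξ
    refine mem_Irr_of_coeff (fun g a b => σ (r g a b)) ?_ ?_ _ ?_ ?_
    · intro a b
      rw [hr1]
      split_ifs <;> simp
    · intro g h a b
      rw [hr2, map_sum]
      simp
    · intro g
      rw [← hr3, map_sum]
    · have h1 := irr_orth_self hξ
      have h2 := congrArg σ h1
      rw [map_sum, map_natCast] at h2
      rw [← h2]
      simp
  refine ⟨_, hmem, ?_, ?_⟩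
  · change σ (ξ 1) = ξ 1
    rw [hd', map_natCast]
  · intro g hg
    set C : ℕ := Nat.card (Subgroup.centralizer {g} : Subgroup G) with hC
    -- the order of `g`
    have hord : g ^ m = 1 := by
      have h1 : orderOf g ∣ C := by
        have h2 : g ∈ Subgroup.centralizer ({g} : Set G) := by
          rw [Subgroup.mem_centralizer_singleton_iff]
        have h3 := orderOf_dvd_natCard (⟨g, h2⟩ : (Subgroup.centralizer {g} : Subgroup G))
        rwa [Subgroup.orderOf_mk] at h3
      have h2 : ¬ ℓ ∣ orderOf g := fun h => hg (h.trans h1)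
      have h3 : orderOf g ∣ Nat.card G := orderOf_dvd_natCard g
      apply orderOf_dvd_iff_pow_eq_one.1
      have h4 : Nat.card G = ℓ ^ (Nat.card G).factorization ℓ * m :=
        (Nat.ordProj_mul_ordCompl_eq_self _ _).symm
      rw [h4] at h3
      refine Nat.Coprime.dvd_of_dvd_mul_left ?_ h3
      exact (((Nat.Prime.coprime_iff_not_dvd hp.out).2 h2).symm).pow_right _
    set ζ : ℂ := Complex.exp (2 * Real.pi * Complex.I / m) with hζd
    have hζ : IsPrimitiveRoot ζ m := Complex.isPrimitiveRoot_exp m hm.ne'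
    obtain ⟨a, ha⟩ := irr_pow hξ g hm hord hζ
    have h1 := ha 1
    rw [pow_one] at h1
    simp_rw [pow_one] at h1
    have hzint : ∀ j, IsIntegral ℤ (ζ ^ j) := fun j =>
      (integral_root hm hζ.pow_eq_one).pow j
    have hσg : red M (σ (ξ g)) = (red M (ξ g)) ^ (ℓ ^ n) := by
      rw [h1, map_sum, ← red_sum_pow hℓ n _ a _ hzint]
      congr 1
      apply Finset.sum_congr rfl
      intro j _
      rw [map_mul, map_natCast, hσ (ζ ^ j) (by rw [← pow_mul, mul_comm, pow_mul, hζ.pow_eq_one,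
        one_pow])]
    obtain ⟨u, hu⟩ := codeg_nat hξ
    have hu' : (Nat.card G : ℂ) / σ (ξ 1) = u := by
      rw [hd', map_natCast, ← hd']; exact hu
    have e1 := cent_omega hξ g
    have e2 := cent_omega hmem g
    rw [hu] at e1
    change _ = (Nat.card G : ℂ) / σ (ξ 1) * σ (ξ g) at e2
    rw [hu'] at e2
    have f1 := congrArg (red M) e1
    have f2 := congrArg (red M) e2
    rw [red_mul (AI.natCast _) (omega_integral _ hξ g), red_mul (AI.natCast _) (irr_integral hξ g),
      red_natCast, red_natCast] at f1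
    rw [red_mul (AI.natCast _) (omega_integral _ hmem g),
      red_mul (AI.natCast _) (irr_integral hmem g), red_natCast, red_natCast] at f2
    have hFn : ∀ k : ℕ, (k : FF M) ^ (ℓ ^ n) = k := by
      intro k
      rw [← iterateFrobenius_def, map_natCast]
    have g1 := congrArg (fun x => x ^ (ℓ ^ n)) f1
    simp only [mul_pow, hFn] at g1
    rw [hσg] at f2
    have hCne : (C : FF M) ≠ 0 := by
      rw [Ne, CharP.cast_eq_zero_iff (FF M) ℓ]
      exact hg
    exact mul_left_cancel₀ hCne (f2.trans g1.symm)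

end Pool.Agent.Helper79_WRA.H15
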