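import Pool.Agent.Helper15_WRA.Vpow
import Pool.Agent.Helper13_WRA.Form
import Pool.Agent.Helper79_WRA.AsmB

/-!
WRA, TEST: evaluation of the tests.
-/

open scoped BigOperators

noncomputable section

namespace Pool.Agent.Helper79_WRA.H15

open Pool.Agent.Helper51_AWC Pool.Agent.Helper79_WRA

/-- Sums of invariant functions over a set with an action of a `p`-group, in characteristic `p`:
only the fixed points contribute. -/
theorem sum_fixed {p : ℕ} [Fact p.Prime] {F X Q : Type*} [CommRing F] [CharP F p] [Group Q]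
    [Finite Q] (hQ : IsPGroup p Q) [MulAction Q X] [Fintype X] [DecidableEq F]
    [DecidablePred fun x : X => ∀ q : Q, q • x = x] (f : X → F)
    (hf : ∀ (q : Q) (x : X), f (q • x) = f x) :
    ∑ x, f x = ∑ x ∈ Finset.univ.filter (fun x => ∀ q : Q, q • x = x), f x := by
  classical
  have h1 : ∑ x, f x = ∑ v ∈ Finset.univ.image f, ∑ x ∈ Finset.univ.filter (fun x => f x = v), f x :=
    (Finset.sum_fiberwise_of_maps_to (fun x _ => Finset.mem_image_of_mem f (Finset.mem_univ x)) _).symm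
  have h2 : ∑ x ∈ Finset.univ.filter (fun x => ∀ q : Q, q • x = x), f x =
      ∑ v ∈ Finset.univ.image f, ∑ x ∈ (Finset.univ.filter (fun x => ∀ q : Q, q • x = x)).filter
        (fun x => f x = v), f x :=
    (Finset.sum_fiberwise_of_maps_to
      (fun x _ => Finset.mem_image_of_mem f (Finset.mem_univ x)) _).symm
  rw [h1, h2]
  apply Finset.sum_congr rfl
  intro v _
  have h3 : ∀ s : Finset X, ∑ x ∈ s.filter (fun x => f x = v), f x =
      ((s.filter (fun x => f x = v)).card : F) * v := by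
    intro s
    rw [Finset.sum_congr rfl (fun x hx => (Finset.mem_filter.1 hx).2), Finset.sum_const,
      nsmul_eq_mul]
  rw [h3, h3]
  congr 1
  letI act : MulAction Q {x : X // f x = v} :=
    { smul := fun q x => ⟨q • x.1, by rw [hf]; exact x.2⟩
      one_smul := fun x => Subtype.ext (one_smul Q x.1)
      mul_smul := fun a b x => Subtype.ext (mul_smul a b x.1) }
  have hc := hQ.card_modEq_card_fixedPoints {x : X // f x = v}
  have h4 : Nat.card {x : X // f x = v} = (Finset.univ.filter (fun x => f x = v)).card := by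
    rw [Nat.card_eq_fintype_card, Fintype.card_subtype]
  have h5 : Nat.card (MulAction.fixedPoints Q {x : X // f x = v}) =
      ((Finset.univ.filter (fun x => ∀ q : Q, q • x = x)).filter (fun x => f x = v)).card := by
    have e : MulAction.fixedPoints Q {x : X // f x = v} ≃
        ((Finset.univ.filter (fun x => ∀ q : Q, q • x = x)).filter (fun x => f x = v) :
          Finset X) :=
      { toFun := fun y => ⟨y.1.1, by
          rw [Finset.mem_filter, Finset.mem_filter]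
          exact ⟨⟨Finset.mem_univ _, fun q => congrArg Subtype.val (y.2 q)⟩, y.1.2⟩⟩
        invFun := fun x => ⟨⟨x.1, (Finset.mem_filter.1 x.2).2⟩, fun q =>
          Subtype.ext ((Finset.mem_filter.1 (Finset.mem_filter.1 x.2).1).2 q)⟩
        left_inv := fun _ => rfl
        right_inv := fun _ => rfl }
    rw [Nat.card_congr e, Nat.card_eq_fintype_card, Fintype.card_coe]
  rw [h4, h5] at hc
  exact (CharP.natCast_eq_natCast F p).2 hc

section tr

variable {G Ω L : Type} [Group L] [MulAction L Ω]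

theorem tr_mul (a b : L) (β : Ω → G → ℂ) : tr (a * b) β = tr a (tr b β) := by
  funext i
  simp only [tr, mul_inv_rev, mul_smul]

theorem tr_one (β : Ω → G → ℂ) : tr (1 : L) β = β := by
  funext i
  simp only [tr, inv_one, one_smul]

/-- the families occurring in the tests -/
def SS (β₀ : Ω → G → ℂ) (h₀ k : L) : Set (Ω → G → ℂ) :=
  {β' | ∃ l : L, β' = tr l β₀ ∧ k = l * h₀ * l⁻¹}

theorem SS_finite [Finite L] (β₀ : Ω → G → ℂ) (h₀ k : L) : (SS β₀ h₀ k).Finite := by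
  apply (Set.finite_range (fun l : L => tr l β₀)).subset
  rintro _ ⟨l, rfl, -⟩
  exact ⟨l, rfl⟩

theorem tr_mem_SS {β₀ : Ω → G → ℂ} {h₀ k p : L} (hp : p * k = k * p) {β' : Ω → G → ℂ}
    (h : β' ∈ SS β₀ h₀ k) : tr p β' ∈ SS β₀ h₀ k := by
  obtain ⟨l, rfl, hl⟩ := h
  refine ⟨p * l, (tr_mul _ _ _).symm, ?_⟩
  have h1 : p * l * h₀ * (p * l)⁻¹ = p * (l * h₀ * l⁻¹) * p⁻¹ := by group
  rw [h1, ← hl, hp, mul_inv_cancel_right]

end tr

theorem isExt_ext {G Δ K : Type} [Group G] [Finite G] [Fintype Δ] [Group K] [Finite K]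
    [MulAction K Δ] (hext : ExtStmt) {v : Finset (Δ → Subgroup G)} {α : Δ → G → ℂ}
    (hα : IsChars v α) : IsExt K v α (ext K v α) := by
  have h := hext G Δ K v α hα
  unfold ext
  rw [dif_pos h]
  exact h.choose_spec

section sit

variable {ℓ : ℕ} [Fact ℓ.Prime] {M : Ideal (integralClosure ℤ ℂ)}
  {G Ω L Δ K : Type} [Group G] [Finite G] [Fintype Ω] [Group L] [Finite L]
  [MulAction L Ω] [Fintype Δ] [Group K] [Finite K] [MulAction K Δ] {q : Ω → Δ} {κ : K →* L}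
  {ι : Wreath G Δ K →* Wreath G Ω L} {P : Subgroup L}

omit [Finite G] [Fintype Ω] [Finite L] [Fintype Δ] [Finite K] [Fact ℓ.Prime] in
theorem top_comm (hs : Sit ℓ q κ ι P) {p : L} (hp : p ∈ P) {h : K} (hc : p * κ h = κ h * p)
    (w : Δ → G) : Wreath.top p * ι ⟨w, h⟩ = ι ⟨w, h⟩ * Wreath.top p := by
  rw [hs.iota]
  apply Wreath.ext
  · funext i
    simp only [Wreath.mul_f, Wreath.top_f, Wreath.top_s, one_mul, mul_one]
    congr 1
    apply ((hs.fib _ _).2 ⟨p, hp, _⟩)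
    rw [smul_inv_smul]
  · exact hc

omit [Finite G] [Finite K] [Fact ℓ.Prime] in
theorem EE_tr [Finite G] (heqv : EqvStmt) (hs : Sit ℓ q κ ι P) {β' : Ω → G → ℂ}
    (hβ' : ∀ i, β' i ∈ Irr G)
    (α : Δ → G → ℂ) {p : L} (hp : p ∈ P) {h : K} (hc : p * κ h = κ h * p) :
    EE ι (tr p β') α h = EE ι β' α h := by
  unfold EE
  congr 1
  apply finsum_congr
  intro w
  congr 1
  have h1 := (heqv G Ω L β' hβ').1 (ι ⟨w, h⟩)⁻¹ (Wreath.top p)
  rw [Wreath.top_s] at h1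
  have h2 : Wreath.top p * (ι ⟨w, h⟩)⁻¹ * (Wreath.top p)⁻¹ = (ι ⟨w, h⟩)⁻¹ := by
    have h3 := top_comm hs hp hc w
    rw [mul_inv_eq_iff_eq_mul, eq_inv_mul_iff_mul_eq, ← mul_assoc, ← h3, mul_inv_cancel_right]
  rw [h2] at h1
  exact h1

omit [Fact ℓ.Prime] in
theorem EE_int (hext : ExtStmt) (heqv : EqvStmt) (hformi : FormiStmt) (hs : Sit ℓ q κ ι P)
    {β' : Ω → G → ℂ} (hβ' : ∀ i, β' i ∈ Irr G) {α : Δ → G → ℂ} (hα : ∀ j, α j ∈ Irr G) {h : K}
    (hh : h ∈ LL K α) : IsIntegral ℤ (EE ι β' α h) := by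
  refine (hformi G Δ K ⊥ (triv G Δ) α (isChars_triv.2 hα) h hh
    (fun x => ex L β' (ι x)⁻¹) ?_).1 ?_
  · intro x a
    have h1 := (heqv G Ω L β' hβ').1 (ι x)⁻¹ (ι (Wreath.base a))
    have h2 : (ι (Wreath.base a)).s = 1 := by
      rw [hs.iota]
      exact map_one κ
    rw [h2, tr_one] at h1
    show ex L β' (ι (Wreath.base a * x * (Wreath.base a)⁻¹))⁻¹ = _
    rw [← h1]
    congr 1
    simp only [map_mul, map_inv, mul_inv_rev, inv_inv, mul_assoc]
  · intro x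
    exact IrrS_integral (isExt_ext hext (isChars_triv.2 hβ')).mem _

/-- The sum over all families occurring for an element commuting with `P`. -/
theorem inner_eval [M.IsMaximal] (hext : ExtStmt) (heqv : EqvStmt) (hformi : FormiStmt)
    (hte : TesteStmt) (hℓ : (ℓ : integralClosure ℤ ℂ) ∈ M) (hG : opCore ℓ G = ⊥)
    (hs : Sit ℓ q κ ι P) {β : Ω → G → ℂ} {α : Δ → G → ℂ} (htw : TwPair ℓ M q β α) {h : K}
    (hh : h ∈ LL K α) (hc : ∀ p ∈ P, p * κ h = κ h * p) {β₀ : Ω → G → ℂ}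
    (hβ₀ : ∀ i, β₀ i ∈ DZ ℓ M G) {h₀ : L} (hh₀ : h₀ ∈ LL L β₀) :
    IsIntegral ℤ (∑ᶠ (β' : Ω → G → ℂ) (_ : β' ∈ SS β₀ h₀ (κ h)), EE ι β' α h) ∧
    (β ∈ SS β₀ h₀ (κ h) → red M (∑ᶠ (β' : Ω → G → ℂ) (_ : β' ∈ SS β₀ h₀ (κ h)), EE ι β' α h) =
      red M (uu β)) ∧
    (β ∉ SS β₀ h₀ (κ h) → red M (∑ᶠ (β' : Ω → G → ℂ) (_ : β' ∈ SS β₀ h₀ (κ h)), EE ι β' α h) =
      0) := by
  classical
  have hch : CharP (FF M) ℓ := charP_FF hℓ
  have hfin := SS_finite β₀ h₀ (κ h)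
  letI : Fintype (SS β₀ h₀ (κ h)) := hfin.fintype
  have e1 : ∑ᶠ (β' : Ω → G → ℂ) (_ : β' ∈ SS β₀ h₀ (κ h)), EE ι β' α h =
      ∑ x : SS β₀ h₀ (κ h), EE ι x.1 α h := by
    rw [← finsum_set_coe_eq_finsum_mem (SS β₀ h₀ (κ h)) (f := fun β' => EE ι β' α h),
      finsum_eq_sum_of_fintype]
  have hα : ∀ j, α j ∈ Irr G := fun j => (htw.dz' j).1
  have hDZ : ∀ β' ∈ SS β₀ h₀ (κ h), ∀ i, β' i ∈ DZ ℓ M G := by
    rintro _ ⟨l, rfl, -⟩ i
    exact hβ₀ _
  have hint : ∀ x : SS β₀ h₀ (κ h), IsIntegral ℤ (EE ι x.1 α h) := fun x =>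
    EE_int hext heqv hformi hs (fun i => (hDZ _ x.2 i).1) hα hh
  rw [e1, red_sum _ _ fun x _ => hint x]
  letI act : MulAction P (SS β₀ h₀ (κ h)) :=
    { smul := fun p x => ⟨tr (p : L) x.1, tr_mem_SS (hc p p.2) x.2⟩
      one_smul := fun x => Subtype.ext (tr_one x.1)
      mul_smul := fun a b x => Subtype.ext (tr_mul (a : L) (b : L) x.1) }
  have hact : ∀ (p : P) (x : SS β₀ h₀ (κ h)), ((p • x : SS β₀ h₀ (κ h)) : Ω → G → ℂ) =
      tr (p : L) x.1 := fun _ _ => rfl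
  rw [sum_fixed (p := ℓ) (Q := P) hs.pgroup (fun x : SS β₀ h₀ (κ h) => red M (EE ι x.1 α h))
    (fun p x => by
      rw [hact, EE_tr heqv hs (fun i => (hDZ _ x.2 i).1) α p.2 (hc p p.2)])]
  have hLL : ∀ β' ∈ SS β₀ h₀ (κ h), κ h ∈ LL L β' := by
    rintro β' ⟨l, hl, hk⟩
    rw [mem_LL (fun i => (hβ₀ i).1)] at hh₀
    have hI : ∀ i, β' i ∈ Irr G := by
      intro i
      rw [hl]
      exact (hβ₀ _).1
    rw [mem_LL hI]
    intro i
    rw [hl, hk]
    show β₀ (l⁻¹ • ((l * h₀ * l⁻¹)⁻¹ • i)) = β₀ (l⁻¹ • i)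
    have h1 : l⁻¹ • ((l * h₀ * l⁻¹)⁻¹ • i) = h₀⁻¹ • (l⁻¹ • i) := by
      simp only [← mul_smul]
      congr 1
      group
    rw [h1, hh₀]
  have hfixed : ∀ x : SS β₀ h₀ (κ h), (∀ p : P, p • x = x) → ∀ i i', q i = q i' →
      x.1 i = x.1 i' := by
    intro x hx i i' hii
    obtain ⟨p, hp, rfl⟩ := (hs.fib _ _).1 hii
    have h1 : tr p x.1 = x.1 := congrArg Subtype.val (hx ⟨p, hp⟩)
    have h2 := congrFun h1 (p • i)
    unfold tr at h2
    rw [inv_smul_smul] at h2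
    exact h2
  have hval : ∀ x : SS β₀ h₀ (κ h), (∀ p : P, p • x = x) →
      (x.1 = β → red M (EE ι x.1 α h) = red M (uu β)) ∧
      (x.1 ≠ β → red M (EE ι x.1 α h) = 0) := by
    intro x hx
    obtain ⟨h1, h2⟩ := hte ℓ M hℓ G hG Ω L Δ K q κ ι P β α hs htw h hh hc x.1 (hDZ _ x.2)
      (hfixed x hx) (hLL _ x.2)
    refine ⟨fun h3 => (red_eq_iff (hint x) ?_).2 (h1 h3), fun h3 => ?_⟩
    · exact IsIntegral.prod _ fun i _ => codeg_int (htw.dz i).1
    · rw [(red_eq_iff (hint x) isIntegral_zero).2 (h2 h3), red_zero]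
  refine ⟨IsIntegral.sum _ fun x _ => hint x, ?_, ?_⟩
  · intro hβ
    have hmem : (⟨β, hβ⟩ : SS β₀ h₀ (κ h)) ∈
        Finset.univ.filter (fun x : SS β₀ h₀ (κ h) => ∀ p : P, p • x = x) := by
      rw [Finset.mem_filter]
      refine ⟨Finset.mem_univ _, fun p => Subtype.ext ?_⟩
      rw [hact]
      funext i
      unfold tr
      apply htw.fib
      apply (hs.fib _ _).2
      exact ⟨p, p.2, smul_inv_smul _ _⟩
    rw [Finset.sum_eq_single_of_mem _ hmem]
    · exact (hval _ (Finset.mem_filter.1 hmem).2).1 rfl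
    · intro x hx hne
      exact (hval x (Finset.mem_filter.1 hx).2).2 (fun h' => hne (Subtype.ext h'))
  · intro hβ
    apply Finset.sum_eq_zero
    intro x hx
    exact (hval x (Finset.mem_filter.1 hx).2).2 (fun h' => hβ (h' ▸ x.2))

omit [Fact ℓ.Prime] [Fintype Ω] [Fintype Δ] [Finite G] [Finite K] in
/-- The cardinality of a fibre is a power of the prime. -/
theorem card_fib [Fact ℓ.Prime] [Finite Ω] (hs : Sit ℓ q κ ι P) (i : Ω) :
    ∃ n, Nat.card {i' // q i' = q i} = ℓ ^ n := by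
  obtain ⟨n, hn⟩ := hs.pgroup.card_orbit i
  refine ⟨n, ?_⟩
  rw [← hn]
  apply Nat.card_congr
  refine Equiv.subtypeEquivRight fun i' => ?_
  rw [MulAction.mem_orbit_iff]
  constructor
  · intro h
    obtain ⟨p, hp, h1⟩ := (hs.fib _ _).1 h.symm
    exact ⟨⟨p, hp⟩, h1⟩
  · rintro ⟨p, hp⟩
    exact ((hs.fib _ _).2 ⟨p, p.2, hp⟩).symm

theorem kappa_mem [M.IsMaximal] (hdzu : DzuStmt) (hℓ : (ℓ : integralClosure ℤ ℂ) ∈ M)
    (hG : opCore ℓ G = ⊥) (hs : Sit ℓ q κ ι P) {β : Ω → G → ℂ} {α : Δ → G → ℂ}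
    (htw : TwPair ℓ M q β α) {k : K} (hk : k ∈ LL K α) : κ k ∈ LL L β := by
  have hch : CharP (FF M) ℓ := charP_FF hℓ
  have hexp : ExpChar (FF M) ℓ := ExpChar.prime Fact.out
  have hdom : IsDomain (FF M) := Ideal.Quotient.isDomain M
  rw [mem_LL (fun i => (htw.dz i).1)]
  rw [mem_LL (fun j => (htw.dz' j).1)] at hk
  intro i
  have h1 : q ((κ k)⁻¹ • i) = k⁻¹ • q i := by
    rw [← map_inv]
    exact hs.compat _ _
  have h2 : α (q ((κ k)⁻¹ • i)) = α (q i) := by rw [h1, hk]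
  obtain ⟨n, hn⟩ := card_fib hs i
  have hn' : Nat.card {i' // q i' = q ((κ k)⁻¹ • i)} = ℓ ^ n := by
    rw [← hn]
    apply Nat.card_congr
    refine (MulAction.toPerm (κ k)).subtypeEquiv fun i' => ?_
    show q i' = q ((κ k)⁻¹ • i) ↔ q (κ k • i') = q i
    rw [hs.compat, h1, smul_eq_iff_eq_inv_smul]
  have h3 := htw.tw i n hn
  have h4 := htw.tw ((κ k)⁻¹ • i) n hn'
  rw [h2] at h4
  apply hdzu ℓ M hℓ G hG _ (htw.dz _) _ (htw.dz _).1
  funext g
  have h5 : labF M (β ((κ k)⁻¹ • i)) g ^ ℓ ^ n = labF M (β i) g ^ ℓ ^ n :=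
    (h4 g).symm.trans (h3 g)
  apply iterateFrobenius_inj (FF M) ℓ n
  rw [iterateFrobenius_def, iterateFrobenius_def]
  exact h5

omit [Finite G] [Finite K] [Fact ℓ.Prime] in
theorem Sh_test [Finite G] (hs : Sit ℓ q κ ι P) (β₀ : Ω → G → ℂ) (h₀ : L) (α : Δ → G → ℂ)
    (h : K) : H13.Sh (fun t => testT β₀ h₀ (ι t)) (ex K α) h / ∏ j, α j 1 =
      ∑ᶠ (β' : Ω → G → ℂ) (_ : β' ∈ SS β₀ h₀ (κ h)), EE ι β' α h := by
  classical
  have := Fintype.ofFinite G
  have hfin := SS_finite β₀ h₀ (κ h)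
  letI : Fintype (SS β₀ h₀ (κ h)) := hfin.fintype
  have e1 : ∀ F : (Ω → G → ℂ) → ℂ, ∑ᶠ (β' : Ω → G → ℂ) (_ : β' ∈ SS β₀ h₀ (κ h)), F β' =
      ∑ x : SS β₀ h₀ (κ h), F x.1 := by
    intro F
    rw [← finsum_set_coe_eq_finsum_mem (SS β₀ h₀ (κ h)) (f := F), finsum_eq_sum_of_fintype]
  rw [e1]
  unfold H13.Sh EE
  have e2 : ∀ w : Δ → G, testT β₀ h₀ (ι ⟨w, h⟩) =
      ∑ x : SS β₀ h₀ (κ h), ex L x.1 (ι ⟨w, h⟩)⁻¹ := by
    intro w
    rw [← e1 (fun β' => ex L β' (ι ⟨w, h⟩)⁻¹)]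
    have h1 : (ι ⟨w, h⟩).s = κ h := by rw [hs.iota]
    unfold testT
    rw [h1]
    rfl
  simp only [e2, finsum_eq_sum_of_fintype]
  rw [← Finset.sum_div, Finset.sum_comm]
  congr 1
  apply Finset.sum_congr rfl
  intro w _
  rw [Finset.sum_mul]

omit [Finite G] [Fintype Ω] [Finite L] [Fintype Δ] [Finite K] [Fact ℓ.Prime] in
theorem good_conj (hs : Sit ℓ q κ ι P) (k h : K) :
    (∀ p ∈ P, p * κ (k * h * k⁻¹) = κ (k * h * k⁻¹) * p) ↔ ∀ p ∈ P, p * κ h = κ h * p := by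
  have hmem : ∀ (k : K) (p : L), p ∈ P → κ k * p * (κ k)⁻¹ ∈ P := by
    intro k p hp
    have h1 := hs.norm k
    rw [← h1, mem_conjS]
    have : (κ k)⁻¹ * (κ k * p * (κ k)⁻¹) * κ k = p := by group
    rw [this]
    exact hp
  constructor
  · intro H p hp
    have h1 := H _ (hmem k p hp)
    simp only [map_mul, map_inv] at h1
    have h2 : κ k * (p * κ h) * (κ k)⁻¹ = κ k * (κ h * p) * (κ k)⁻¹ := by
      calc κ k * (p * κ h) * (κ k)⁻¹
          = κ k * p * (κ k)⁻¹ * (κ k * κ h * (κ k)⁻¹) := by group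
        _ = κ k * κ h * (κ k)⁻¹ * (κ k * p * (κ k)⁻¹) := h1
        _ = κ k * (κ h * p) * (κ k)⁻¹ := by group
    exact mul_left_cancel (mul_right_cancel h2)
  · intro H p hp
    have h1 := H _ (hmem k⁻¹ p hp)
    simp only [map_mul, map_inv, inv_inv] at h1 ⊢
    calc p * (κ k * κ h * (κ k)⁻¹)
        = κ k * ((κ k)⁻¹ * p * κ k * κ h) * (κ k)⁻¹ := by group
      _ = κ k * (κ h * ((κ k)⁻¹ * p * κ k)) * (κ k)⁻¹ := by rw [h1]
      _ = κ k * κ h * (κ k)⁻¹ * p := by group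

end sit

theorem test (hext : ExtStmt) (heqv : EqvStmt) (hformi : FormiStmt) (hdzu : DzuStmt)
    (hte : TesteStmt) : TestStmt := by
  classical
  intro ℓ _ M _ hℓ G _ _ hG Ω L Δ K _ _ _ _ _ _ _ _ q κ ι P β α hs htw lam hlam hrestr
  have := Fintype.ofFinite K
  have := Fintype.ofFinite (LL K α)
  have hα : ∀ j, α j ∈ Irr G := fun j => (htw.dz' j).1
  have hXα := isExt_ext (K := K) hext (isChars_triv.2 hα)
  have key : ∀ (β₀ : Ω → G → ℂ), (∀ i, β₀ i ∈ DZ ℓ M G) → ∀ h₀ ∈ LL L β₀, ∀ R : K → ℂ,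
      (∀ u ∈ LL K α, ∀ h, R (u * h * u⁻¹) = R h) →
      (∀ h ∈ LL K α, (∀ p ∈ P, p * κ h = κ h * p) →
        Cong M (∑ᶠ (β' : Ω → G → ℂ) (_ : β' ∈ SS β₀ h₀ (κ h)), EE ι β' α h) (R h)) →
      (∀ h, ¬ (∀ p ∈ P, p * κ h = κ h * p) → R h = 0) →
      Cong M (val (fun t => testT β₀ h₀ (ι t)) (et α lam)) ((∑ h, lam h * R h) / lam 1) := by
    intro β₀ hβ₀ h₀ hh₀ R hR hR1 hR2
    obtain ⟨hΦc, hΦi, -⟩ := (heqv G Ω L β₀ (fun i => (hβ₀ i).1)).2.1 h₀ hh₀
    obtain ⟨Ψ, hΨ⟩ : ∃ Ψ : Wreath G Δ K → ℂ, Ψ = fun t =>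
      if ∀ p ∈ P, p * κ t.s = κ t.s * p then testT β₀ h₀ (ι t) else 0 := ⟨_, rfl⟩
    have h1 := hrestr (testT β₀ h₀) hΦc hΦi Ψ
      (fun t ht => by rw [hΨ]; exact if_pos ht) (fun t ht => by rw [hΨ]; exact if_neg ht)
    refine h1.trans ?_
    have hΨc : ∀ x y, Ψ (y * x * y⁻¹) = Ψ x := by
      intro x y
      rw [hΨ]
      show (if ∀ p ∈ P, p * κ (y * x * y⁻¹).s = κ (y * x * y⁻¹).s * p then
        testT β₀ h₀ (ι (y * x * y⁻¹)) else 0) = if ∀ p ∈ P, p * κ x.s = κ x.s * p then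
        testT β₀ h₀ (ι x) else 0
      have h2 : (∀ p ∈ P, p * κ (y * x * y⁻¹).s = κ (y * x * y⁻¹).s * p) ↔
          ∀ p ∈ P, p * κ x.s = κ x.s * p := by
        rw [Wreath.conj_s]
        exact good_conj hs y.s x.s
      have h3 : testT β₀ h₀ (ι (y * x * y⁻¹)) = testT β₀ h₀ (ι x) := by
        rw [map_mul, map_mul, map_inv, hΦc]
      rw [h3]
      by_cases hg : ∀ p ∈ P, p * κ x.s = κ x.s * p
      · rw [if_pos hg, if_pos (h2.2 hg)]
      · rw [if_neg hg, if_neg (fun h => hg (h2.1 h))]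
    have hD : ∀ h ∈ LL K α, Cong M (H13.Sh Ψ (ex K α) h / ∏ j, α j 1) (R h) := by
      intro h hh
      by_cases hg : ∀ p ∈ P, p * κ h = κ h * p
      · have h2 : H13.Sh Ψ (ex K α) h = H13.Sh (fun t => testT β₀ h₀ (ι t)) (ex K α) h := by
          unfold H13.Sh
          apply finsum_congr
          intro w
          congr 1
          rw [hΨ]
          exact if_pos hg
        rw [h2, Sh_test hs]
        exact hR1 h hh hg
      · have h2 : H13.Sh Ψ (ex K α) h = 0 := by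
          unfold H13.Sh
          have h3 : ∀ w : Δ → G, Ψ ⟨w, h⟩ * ex K α ⟨w, h⟩ = 0 := by
            intro w
            have h4 : Ψ ⟨w, h⟩ = 0 := by
              rw [hΨ]
              exact if_neg hg
            rw [h4, zero_mul]
          simp only [h3, finsum_zero]
        rw [h2, zero_div, hR2 h hg]
        exact Cong.refl _
    have hval := H13.val_eta (K := K) hXα Ψ lam
    rw [hval, cong_iff_sub, ← sub_div, ← Finset.sum_sub_distrib]
    have h2 : ∑ h : K, (lam h * (H13.Sh Ψ (ext K (triv G Δ) α) h / ∏ j, α j 1) - lam h * R h) =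
        ∑ h : LL K α, lam h * (H13.Sh Ψ (ext K (triv G Δ) α) h / (∏ j, α j 1) - R h) := by
      have h3 : ∀ h : K, (lam h * (H13.Sh Ψ (ext K (triv G Δ) α) h / ∏ j, α j 1) -
          lam h * R h) = if h ∈ LL K α then
            lam h * (H13.Sh Ψ (ext K (triv G Δ) α) h / (∏ j, α j 1) - R h) else 0 := by
        intro h
        split_ifs with hh
        · ring
        · rw [hlam.1 h hh]; ring
      simp_rw [h3]
      rw [← Finset.sum_filter]
      symm
      refine Finset.sum_bij (fun (x : LL K α) _ => (x : K)) ?_ ?_ ?_ ?_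
      · intro x _; simp
      · intro x _ y _ hxy; exact Subtype.ext hxy
      · intro x hx
        exact ⟨⟨x, (Finset.mem_filter.1 hx).2⟩, Finset.mem_univ _, rfl⟩
      · intro x _; rfl
    rw [h2]
    refine H13.cong_class hlam.2
      (fun h : LL K α => H13.Sh Ψ (ext K (triv G Δ) α) h / (∏ j, α j 1) - R h)
      (fun x y => ?_) (fun x => ?_)
    · show H13.Sh Ψ (ext K (triv G Δ) α) ((y : K) * x * (y : K)⁻¹) / (∏ j, α j 1) -
        R ((y : K) * x * (y : K)⁻¹) = _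
      rw [H13.Sh_conj hXα.mem y.2 hΨc, hR _ y.2]
    · exact cong_iff_sub.1 (hD x x.2)
  constructor
  · intro β₀ hβ₀ hno h₀ hh₀
    have h1 := key β₀ hβ₀ h₀ hh₀ (fun _ => 0) (fun _ _ _ => rfl) (fun h hh hc => by
      obtain ⟨hi, -, h2⟩ := inner_eval hext heqv hformi hte hℓ hG hs htw hh hc hβ₀ hh₀
      apply (red_eq_iff hi isIntegral_zero).1
      rw [h2, red_zero]
      rintro ⟨l, hl, -⟩
      apply hno l⁻¹
      rw [hl, ← tr_mul, inv_mul_cancel, tr_one]) (fun _ _ => rfl)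
    simpa using h1
  · intro h₀ hh₀
    have hβI : ∀ i, β i ∈ Irr G := fun i => (htw.dz i).1
    have huI : IsIntegral ℤ (uu β) := IsIntegral.prod _ fun i _ => codeg_int (hβI i)
    have hSS : ∀ h : K, β ∈ SS β h₀ (κ h) ↔ ∃ u ∈ LL L β, κ h = u * h₀ * u⁻¹ := by
      intro h
      constructor
      · rintro ⟨l, hl, hk⟩
        refine ⟨l, ?_, hk⟩
        rw [mem_LL hβI]
        intro i
        exact (congrFun hl i).symm
      · rintro ⟨u, hu, hk⟩
        refine ⟨u, ?_, hk⟩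
        funext i
        exact ((mem_LL hβI).1 hu i).symm
    have h1 := key β htw.dz h₀ hh₀ (fun h => if (∀ p ∈ P, p * κ h = κ h * p) ∧
        ∃ u ∈ LL L β, κ h = u * h₀ * u⁻¹ then uu β else 0) ?_ ?_ ?_
    · have h2 : (∑ h, lam h * (if (∀ p ∈ P, p * κ h = κ h * p) ∧
          ∃ u ∈ LL L β, κ h = u * h₀ * u⁻¹ then uu β else 0)) / lam 1 =
          uu β * ((∑ᶠ (k : K) (_ : (∀ p ∈ P, p * κ k = κ k * p) ∧
            ∃ u ∈ LL L β, κ k = u * h₀ * u⁻¹), lam k) / lam 1) := by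
        rw [← mul_div_assoc, finsum_eq_sum_of_fintype, Finset.mul_sum]
        congr 1
        apply Finset.sum_congr rfl
        intro k _
        rw [finsum_eq_if]
        split_ifs
        · ring
        · ring
      rw [h2] at h1
      exact h1
    · intro u hu h
      have h2 : ((∀ p ∈ P, p * κ (u * h * u⁻¹) = κ (u * h * u⁻¹) * p) ∧
          ∃ v ∈ LL L β, κ (u * h * u⁻¹) = v * h₀ * v⁻¹) ↔
          ((∀ p ∈ P, p * κ h = κ h * p) ∧ ∃ v ∈ LL L β, κ h = v * h₀ * v⁻¹) := by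
        have hku := kappa_mem hdzu hℓ hG hs htw hu
        rw [good_conj hs]
        apply and_congr_right
        intro _
        constructor
        · rintro ⟨v, hv, h3⟩
          refine ⟨(κ u)⁻¹ * v, (LL L β).mul_mem ((LL L β).inv_mem hku) hv, ?_⟩
          simp only [map_mul, map_inv] at h3
          have h4 : κ h = (κ u)⁻¹ * (κ u * κ h * (κ u)⁻¹) * κ u := by group
          rw [h4, h3]
          group
        · rintro ⟨v, hv, h3⟩
          refine ⟨κ u * v, (LL L β).mul_mem hku hv, ?_⟩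
          simp only [map_mul, map_inv]
          rw [h3]
          group
      simp only [h2]
    · intro h hh hc
      obtain ⟨hi, h3, h4⟩ := inner_eval hext heqv hformi hte hℓ hG hs htw hh hc htw.dz hh₀
      by_cases hex : ∃ u ∈ LL L β, κ h = u * h₀ * u⁻¹
      · simp only [if_pos (And.intro hc hex)]
        exact (red_eq_iff hi huI).1 (h3 ((hSS h).2 hex))
      · simp only [if_neg (fun h' : _ ∧ _ => hex h'.2)]
        apply (red_eq_iff hi isIntegral_zero).1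
        rw [h4 (fun h' => hex ((hSS h).1 h')), red_zero]
    · intro h hc
      simp only [if_neg (fun h' : _ ∧ _ => hc h'.1)]

end Pool.Agent.Helper79_WRA.H15
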